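import Pool.Agent.helper11.TX.Spec

/-!
# Project TX (MP_bf63dc_nt), row VL
-/

set_option autoImplicit false

namespace Pool.Agent.helper11.TX

open Finset Pool.Agent.helper85.FC

theorem VL_fac (l : ℕ) (hl : l.Prime) : 0 ≤ 1 - 1 / (l : ℝ) ∧ 1 - 1 / (l : ℝ) ≤ 1 := by
  have h1 : (1 : ℝ) ≤ l := by exact_mod_cast hl.one_lt.le
  have h2 : 1 / (l : ℝ) ≤ 1 := by
    rw [div_le_one (by linarith)]
    exact h1
  have h3 : 0 ≤ 1 / (l : ℝ) := by positivity
  constructor <;> linarith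

theorem VL_yy_nonneg (W n : ℕ) : 0 ≤ yy W n := by
  unfold yy
  refine Finset.prod_nonneg fun l hl => (VL_fac l ?_).1
  exact Nat.prime_of_mem_primeFactors (mem_filter.1 hl).1

theorem VL_yy_le_one (W n : ℕ) : yy W n ≤ 1 := by
  unfold yy
  refine Finset.prod_le_one (fun l hl => (VL_fac l ?_).1) (fun l hl => (VL_fac l ?_).2) <;>
  exact Nat.prime_of_mem_primeFactors (mem_filter.1 hl).1

theorem VL_yy_mul_le (W g a : ℕ) (hg : 0 < g) (ha : 0 < a) : yy W (g * a) ≤ yy W a := by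
  unfold yy
  have hsub : (a.primeFactors.filter fun l => ¬ l ∣ W) ⊆
      ((g * a).primeFactors.filter fun l => ¬ l ∣ W) := by
    apply Finset.filter_subset_filter
    exact Nat.primeFactors_mono (Dvd.intro_left g rfl) (by positivity)
  rw [← Finset.prod_sdiff hsub]
  have h1 : (∏ l ∈ ((g * a).primeFactors.filter fun l => ¬ l ∣ W) \
      (a.primeFactors.filter fun l => ¬ l ∣ W), (1 - 1 / (l : ℝ))) ≤ 1 := by
    refine Finset.prod_le_one (fun l hl => (VL_fac l ?_).1) (fun l hl => (VL_fac l ?_).2) <;>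
    exact Nat.prime_of_mem_primeFactors (mem_filter.1 (mem_sdiff.1 hl).1).1
  have h2 : 0 ≤ ∏ l ∈ (a.primeFactors.filter fun l => ¬ l ∣ W), (1 - 1 / (l : ℝ)) :=
    VL_yy_nonneg W a
  nlinarith

theorem VL_yy_coprime (W a b : ℕ) (hab : Nat.Coprime a b) :
    yy W (a * b) = yy W a * yy W b := by
  unfold yy
  rw [hab.primeFactors_mul, Finset.filter_union, Finset.prod_union]
  exact Finset.disjoint_filter_filter hab.disjoint_primeFactors

theorem VL_one_sub (s : Finset ℕ) (f : ℕ → ℝ) (h0 : ∀ l ∈ s, 0 ≤ f l) (h1 : ∀ l ∈ s, f l ≤ 1) :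
    1 - ∑ l ∈ s, f l ≤ ∏ l ∈ s, (1 - f l) := by
  classical
  induction s using Finset.induction_on with
  | empty => simp
  | insert a s ha ih =>
    rw [Finset.sum_insert ha, Finset.prod_insert ha]
    have i1 := ih (fun l hl => h0 l (mem_insert_of_mem hl)) (fun l hl => h1 l (mem_insert_of_mem hl))
    have i2 := h0 a (mem_insert_self a s)
    have i3 := h1 a (mem_insert_self a s)
    have i4 : ∏ l ∈ s, (1 - f l) ≤ 1 :=
      Finset.prod_le_one (fun l hl => by linarith [h1 l (mem_insert_of_mem hl)])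
        (fun l hl => by linarith [h0 l (mem_insert_of_mem hl)])
    have i5 : f a * ∏ l ∈ s, (1 - f l) ≤ f a * 1 := mul_le_mul_of_nonneg_left i4 i2
    nlinarith

theorem VL_harm (N : ℕ) : ((harmonic N : ℚ) : ℝ) = ∑ a ∈ Icc 1 N, 1 / (a : ℝ) := by
  rw [harmonic_eq_sum_Icc]
  push_cast
  exact Finset.sum_congr rfl fun a _ => (one_div _).symm

theorem VL_H_le (N : ℕ) : ∑ a ∈ Icc 1 N, 1 / (a : ℝ) ≤ 1 + Real.log N := by
  rw [← VL_harm]
  exact harmonic_le_one_add_log N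

theorem VL_le_H (N : ℕ) (hN : 0 < N) : Real.log N ≤ ∑ a ∈ Icc 1 N, 1 / (a : ℝ) := by
  rw [← VL_harm]
  refine le_trans ?_ (log_add_one_le_harmonic N)
  apply Real.log_le_log (by exact_mod_cast hN)
  push_cast
  linarith

theorem VL_mult (l N : ℕ) (hl : 0 < l) :
    ∑ α ∈ Icc 1 N, (if l ∣ α then 1 / (α : ℝ) else 0) ≤ 1 / (l : ℝ) * ∑ a ∈ Icc 1 N, 1 / (a : ℝ) := by
  rw [← Finset.sum_filter]
  have h1 : (Icc 1 N).filter (fun α => l ∣ α) ⊆ (Icc 1 N).image (fun k => l * k) := by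
    intro α hα
    rw [mem_filter, mem_Icc] at hα
    obtain ⟨⟨h2, h3⟩, k, hk⟩ := hα
    rw [mem_image]
    refine ⟨k, ?_, hk.symm⟩
    rw [mem_Icc]
    constructor
    · rcases Nat.eq_zero_or_pos k with h | h
      · subst h
        rw [mul_zero] at hk
        omega
      · exact h
    · have : k ≤ l * k := Nat.le_mul_of_pos_left k hl
      omega
  refine (Finset.sum_le_sum_of_subset_of_nonneg h1 fun _ _ _ => by positivity).trans ?_
  rw [Finset.sum_image (fun x _ y _ h => Nat.eq_of_mul_eq_mul_left hl h), Finset.mul_sum]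
  refine le_of_eq (Finset.sum_congr rfl fun k _ => ?_)
  push_cast
  rw [one_div_mul_one_div]

theorem VL_Y (W N : ℕ) (hW : 30 ∣ W) :
    5 / 6 * ∑ a ∈ Icc 1 N, 1 / (a : ℝ) ≤ ∑ α ∈ Icc 1 N, yy W α / (α : ℝ) := by
  have h1 : ∀ α ∈ Icc 1 N, 1 / (α : ℝ) -
      ∑ l ∈ Ioc 6 N, (if l ∣ α then 1 / (l : ℝ) * (1 / (α : ℝ)) else 0) ≤ yy W α / (α : ℝ) := by
    intro α hα
    rw [mem_Icc] at hα
    have hα0 : (0 : ℝ) < α := by exact_mod_cast hα.1
    have h2 : 1 - ∑ l ∈ α.primeFactors.filter (fun l => ¬ l ∣ W), 1 / (l : ℝ) ≤ yy W α := by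
      unfold yy
      apply VL_one_sub
      · intro l _
        positivity
      · intro l hl
        have := VL_fac l (Nat.prime_of_mem_primeFactors (mem_filter.1 hl).1)
        linarith [this.1]
    have h3 : ∑ l ∈ α.primeFactors.filter (fun l => ¬ l ∣ W), 1 / (l : ℝ) ≤
        ∑ l ∈ (Ioc 6 N).filter (fun l => l ∣ α), 1 / (l : ℝ) := by
      apply Finset.sum_le_sum_of_subset_of_nonneg
      · intro l hl
        rw [mem_filter, Nat.mem_primeFactors] at hl
        obtain ⟨⟨hp, hd, _⟩, hnW⟩ := hl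
        rw [mem_filter, mem_Ioc]
        refine ⟨⟨?_, (Nat.le_of_dvd (by omega) hd).trans hα.2⟩, hd⟩
        by_contra hlt
        apply hnW
        refine dvd_trans ?_ hW
        have h6 : l ≤ 6 := by omega
        interval_cases l
        · exact absurd hp (by norm_num)
        · exact absurd hp (by norm_num)
        · norm_num
        · norm_num
        · exact absurd hp (by norm_num)
        · norm_num
        · exact absurd hp (by norm_num)
      · intro _ _ _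
        positivity
    have h4 : ∑ l ∈ Ioc 6 N, (if l ∣ α then 1 / (l : ℝ) * (1 / (α : ℝ)) else 0) =
        (∑ l ∈ (Ioc 6 N).filter (fun l => l ∣ α), 1 / (l : ℝ)) * (1 / (α : ℝ)) := by
      rw [← Finset.sum_filter, Finset.sum_mul]
    rw [h4, div_eq_mul_one_div (yy W α)]
    have h5 : 0 < 1 / (α : ℝ) := by positivity
    nlinarith [mul_le_mul_of_nonneg_right (h2.trans' (sub_le_sub_left h3 1)) h5.le]
  refine le_trans ?_ (Finset.sum_le_sum h1)
  rw [Finset.sum_sub_distrib, Finset.sum_comm]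
  have h6 : ∑ l ∈ Ioc 6 N, ∑ α ∈ Icc 1 N, (if l ∣ α then 1 / (l : ℝ) * (1 / (α : ℝ)) else 0) ≤
      1 / 6 * ∑ a ∈ Icc 1 N, 1 / (a : ℝ) := by
    have hH : 0 ≤ ∑ a ∈ Icc 1 N, 1 / (a : ℝ) := Finset.sum_nonneg fun _ _ => by positivity
    calc ∑ l ∈ Ioc 6 N, ∑ α ∈ Icc 1 N, (if l ∣ α then 1 / (l : ℝ) * (1 / (α : ℝ)) else 0)
        ≤ ∑ l ∈ Ioc 6 N, ((l : ℝ) ^ 2)⁻¹ * ∑ a ∈ Icc 1 N, 1 / (a : ℝ) := by
          refine Finset.sum_le_sum fun l hl => ?_
          rw [mem_Ioc] at hl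
          have hm := VL_mult l N (by omega)
          have e1 : ∑ α ∈ Icc 1 N, (if l ∣ α then 1 / (l : ℝ) * (1 / (α : ℝ)) else 0) =
              1 / (l : ℝ) * ∑ α ∈ Icc 1 N, (if l ∣ α then 1 / (α : ℝ) else 0) := by
            rw [Finset.mul_sum]
            refine Finset.sum_congr rfl fun α _ => ?_
            split_ifs <;> simp
          rw [e1]
          have e2 : ((l : ℝ) ^ 2)⁻¹ = 1 / (l : ℝ) * (1 / (l : ℝ)) := by
            rw [sq, mul_inv, one_div]
          rw [e2, mul_assoc]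
          exact mul_le_mul_of_nonneg_left hm (by positivity)
      _ = (∑ l ∈ Ioc 6 N, ((l : ℝ) ^ 2)⁻¹) * ∑ a ∈ Icc 1 N, 1 / (a : ℝ) := by
          rw [Finset.sum_mul]
      _ ≤ 1 / 6 * ∑ a ∈ Icc 1 N, 1 / (a : ℝ) := by
          apply mul_le_mul_of_nonneg_right _ hH
          rcases le_or_gt 6 N with h | h
          · have h7 := sum_Ioc_inv_sq_le_sub (α := ℝ) (k := 6) (n := N) (by norm_num) h
            have h8 : (0 : ℝ) ≤ (N : ℝ)⁻¹ := by positivity
            have h9 : ((6 : ℕ) : ℝ)⁻¹ = 1 / 6 := by norm_num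
            rw [h9] at h7
            linarith
          · rw [Finset.Ioc_eq_empty (by omega), Finset.sum_empty]
            norm_num
  linarith

theorem VL_ZZ (N : ℕ) : ZZ N ≤ 2 := by
  unfold ZZ
  rcases Nat.eq_zero_or_pos N with h | h
  · subst h
    simp
  · have h1 : Icc 1 N = insert 1 (Ioc 1 N) := by
      ext i
      simp only [mem_Icc, mem_insert, mem_Ioc]
      omega
    rw [h1, Finset.sum_insert (by simp)]
    have h2 := sum_Ioc_inv_sq_le_sub (α := ℝ) (k := 1) (n := N) (by norm_num) h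
    have h3 : (0 : ℝ) ≤ (N : ℝ)⁻¹ := by positivity
    have h4 : ∑ i ∈ Ioc 1 N, 1 / (i : ℝ) ^ 2 = ∑ i ∈ Ioc 1 N, ((i : ℝ) ^ 2)⁻¹ :=
      Finset.sum_congr rfl fun _ _ => one_div _
    rw [h4]
    norm_num at h2 ⊢
    linarith

theorem VL_sq (h : GC_stmt) (W N : ℕ) :
    (∑ α ∈ Icc 1 N, yy W α / (α : ℝ)) ^ 2 ≤ ZZ N * VW W N := by
  rw [sq, Finset.sum_mul_sum, h N fun α α' => yy W α / (α : ℝ) * (yy W α' / (α' : ℝ))]
  unfold ZZ
  rw [Finset.sum_mul]
  refine Finset.sum_le_sum fun g hg => ?_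
  rw [mem_Icc] at hg
  have hg0 : (0 : ℝ) < g := by exact_mod_cast hg.1
  have hNg : N / g ≤ N := Nat.div_le_self N g
  unfold VW
  have h1 : ∀ a ∈ Icc 1 (N / g), ∀ b ∈ (Icc 1 (N / g)).filter (fun b => Nat.Coprime a b),
      yy W (g * a) / ((g * a : ℕ) : ℝ) * (yy W (g * b) / ((g * b : ℕ) : ℝ)) ≤
        1 / (g : ℝ) ^ 2 * (yy W (a * b) / ((a : ℝ) * b)) := by
    intro a ha b hb
    rw [mem_Icc] at ha
    rw [mem_filter, mem_Icc] at hb
    have ha0 : (0 : ℝ) < a := by exact_mod_cast ha.1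
    have hb0 : (0 : ℝ) < b := by exact_mod_cast hb.1.1
    rw [VL_yy_coprime W a b hb.2]
    have e1 := VL_yy_mul_le W g a hg.1 ha.1
    have e2 := VL_yy_mul_le W g b hg.1 hb.1.1
    have e3 := VL_yy_nonneg W (g * a)
    have e4 := VL_yy_nonneg W (g * b)
    have e5 : yy W (g * a) * yy W (g * b) ≤ yy W a * yy W b :=
      mul_le_mul e1 e2 e4 (VL_yy_nonneg W a)
    have e6 : yy W (g * a) / ((g * a : ℕ) : ℝ) * (yy W (g * b) / ((g * b : ℕ) : ℝ)) =
        (yy W (g * a) * yy W (g * b)) * (1 / ((g : ℝ) ^ 2 * (a * b))) := by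
      push_cast
      field_simp
    have e7 : 1 / (g : ℝ) ^ 2 * (yy W a * yy W b / ((a : ℝ) * b)) =
        (yy W a * yy W b) * (1 / ((g : ℝ) ^ 2 * (a * b))) := by
      field_simp
    rw [e6, e7]
    exact mul_le_mul_of_nonneg_right e5 (by positivity)
  calc ∑ a ∈ Icc 1 (N / g), ∑ b ∈ (Icc 1 (N / g)).filter (fun b => Nat.Coprime a b),
        yy W (g * a) / ((g * a : ℕ) : ℝ) * (yy W (g * b) / ((g * b : ℕ) : ℝ))
      ≤ ∑ a ∈ Icc 1 (N / g), ∑ b ∈ (Icc 1 (N / g)).filter (fun b => Nat.Coprime a b),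
        1 / (g : ℝ) ^ 2 * (yy W (a * b) / ((a : ℝ) * b)) :=
        Finset.sum_le_sum fun a ha => Finset.sum_le_sum fun b hb => h1 a ha b hb
    _ ≤ ∑ a ∈ Icc 1 N, ∑ b ∈ (Icc 1 N).filter (fun b => Nat.Coprime a b),
        1 / (g : ℝ) ^ 2 * (yy W (a * b) / ((a : ℝ) * b)) := by
        have hnn : ∀ a b : ℕ, 0 ≤ 1 / (g : ℝ) ^ 2 * (yy W (a * b) / ((a : ℝ) * b)) := fun a b =>
          mul_nonneg (by positivity) (div_nonneg (VL_yy_nonneg W _) (by positivity))
        refine (Finset.sum_le_sum fun a _ => Finset.sum_le_sum_of_subset_of_nonneg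
          (Finset.filter_subset_filter _ (Finset.Icc_subset_Icc_right hNg))
          fun b _ _ => hnn a b).trans ?_
        exact Finset.sum_le_sum_of_subset_of_nonneg (Finset.Icc_subset_Icc_right hNg)
          fun a _ _ => Finset.sum_nonneg fun b _ => hnn a b
    _ = 1 / (g : ℝ) ^ 2 * ∑ a ∈ Icc 1 N, ∑ b ∈ (Icc 1 N).filter (fun b => Nat.Coprime a b),
        yy W (a * b) / ((a : ℝ) * b) := by
        rw [Finset.mul_sum]
        exact Finset.sum_congr rfl fun a _ => by rw [Finset.mul_sum]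

theorem VL (h : GC_stmt) : VL_stmt := by
  intro W N _ hW hN
  have hH0 : 0 ≤ ∑ a ∈ Icc 1 N, 1 / (a : ℝ) := Finset.sum_nonneg fun _ _ => by positivity
  have hlog : 0 ≤ Real.log N := Real.log_natCast_nonneg N
  have hVW : 0 ≤ VW W N := by
    unfold VW
    exact Finset.sum_nonneg fun a _ => Finset.sum_nonneg fun b _ =>
      div_nonneg (VL_yy_nonneg W _) (by positivity)
  constructor
  · have h1 := VL_sq h W N
    have h2 := VL_Y W N hW
    have h3 := VL_le_H N hN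
    have h4 := VL_ZZ N
    have h5 : 5 / 6 * Real.log N ≤ ∑ α ∈ Icc 1 N, yy W α / (α : ℝ) := by linarith
    have h6 : (5 / 6 * Real.log N) ^ 2 ≤ (∑ α ∈ Icc 1 N, yy W α / (α : ℝ)) ^ 2 :=
      pow_le_pow_left₀ (by positivity) h5 2
    have h7 : ZZ N * VW W N ≤ 2 * VW W N := mul_le_mul_of_nonneg_right h4 hVW
    nlinarith [sq_nonneg (Real.log N)]
  · have h1 := VL_H_le N
    have h2 : VW W N ≤ (∑ a ∈ Icc 1 N, 1 / (a : ℝ)) ^ 2 := by
      unfold VW
      rw [sq, Finset.sum_mul_sum]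
      refine Finset.sum_le_sum fun a _ => ?_
      refine (Finset.sum_le_sum_of_subset_of_nonneg (Finset.filter_subset _ _)
        fun b _ _ => div_nonneg (VL_yy_nonneg W _) (by positivity)).trans ?_
      refine Finset.sum_le_sum fun b _ => ?_
      rw [one_div_mul_one_div]
      exact div_le_div_of_nonneg_right (VL_yy_le_one W _) (by positivity)
    exact h2.trans (pow_le_pow_left₀ hH0 h1 2)

end Pool.Agent.helper11.TX
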